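import Pool.Agent.Q291.TET.B

/-!
# MP_36f34d_co: at least `c n^{5/3}` similar tetrahedra

The similarities `x ↦ q x q̄ + t` (`q` a quaternion with integer entries, `t` an integer vector)
map a tetrahedron with integer vertices to tetrahedra with integer vertices.  With
`1 ≤ q_i ≤ K` and `1 ≤ t_i ≤ K²` there are `K^{10}` of them, at most `256` of them have the same
image of the tetrahedron, and all images are in a grid with `O(K^6)` points.
-/

set_option autoImplicit false

open Finset Filter Pool.Agent.Q291.TET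

namespace Pool.Agent.Results.MP_36f34d_co.QuaternionCopies

/-- The vertices `0, e₁, e₂, e₃`. -/
theorem exists_int : ∃ T : Finset E, IsTet T ∧ IsInt T := by
  classical
  refine ⟨({(0, 0, 0), (1, 0, 0), (0, 1, 0), (0, 0, 1)} : Finset (ℤ × ℤ × ℤ)).image pt,
    ⟨?_, ?_⟩, ?_⟩
  · rw [card_image_of_injective _ pt_inj]
    decide
  · intro u hu c
    by_contra hcon
    push Not at hcon
    have h0 := hcon (pt (0, 0, 0)) (mem_image_of_mem _ (by decide))
    have h1 := hcon (pt (1, 0, 0)) (mem_image_of_mem _ (by decide))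
    have h2 := hcon (pt (0, 1, 0)) (mem_image_of_mem _ (by decide))
    have h3 := hcon (pt (0, 0, 1)) (mem_image_of_mem _ (by decide))
    rw [inner3] at h0 h1 h2 h3
    simp [pt] at h0 h1 h2 h3
    apply hu
    rw [eq_zero_iff3, h1, h2, h3, ← h0]
    norm_num
  · intro x hx i
    rw [mem_image] at hx
    obtain ⟨z, -, rfl⟩ := hx
    fin_cases i
    · exact ⟨z.1, by simp [pt]⟩
    · exact ⟨z.2.1, by simp [pt]⟩
    · exact ⟨z.2.2, by simp [pt]⟩

theorem result :
    (∀ T : Finset E, IsTet T → IsInt T → ∃ c : ℝ, 0 < c ∧ ∀ᶠ n : ℕ in atTop,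
      ∃ P : Finset E, P.card = n ∧ c * (n : ℝ) ^ (5 / 3 : ℝ) ≤ num P T) ∧
    (∃ c : ℝ, 0 < c ∧ ∀ᶠ n : ℕ in atTop, c * (n : ℝ) ^ (5 / 3 : ℝ) ≤ f n) := by
  refine ⟨fun T hT hI => lower hT hI, ?_⟩
  obtain ⟨T, hT, hI⟩ := exists_int
  obtain ⟨c, hc, h⟩ := lower hT hI
  refine ⟨c, hc, ?_⟩
  filter_upwards [h] with n hn
  obtain ⟨P, hP, hP2⟩ := hn
  exact hP2.trans (by exact_mod_cast num_le_f hP hT)

end Pool.Agent.Results.MP_36f34d_co.QuaternionCopies
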